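import Pool.Agent.Work.MP_88b7aa_gt.D.All
import Pool.Agent.Work.MP_88b7aa_gt.P2.Two
import Pool.Agent.Work.MP_88b7aa_gt.CH.Same

/-!
Schwartz's conjecture for complex hyperbolic `(p,q,r)` triangle groups, parametrised by the argument `θ` of the triple product of the polar
vectors of the three mirrors, for all `2 ≤ p ≤ q ≤ r` with `1/p + 1/q + 1/r < 1`.

The parameter `θ` determines the triangle group up to conjugation by a linear isometry.

If `p ≥ 3`, there is `θs ∈ (0, π)` such that for the parameters `|θ| ≤ π` the following are equivalent: `|θ| ≤ θs`; neither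
`W_A = I₁I₂I₃I₂` nor `W_B = I₁I₂I₃` is elliptic; the representation is discrete and faithful. All parameters of `[-θs, θs]` occur.

If `p = 2`, there are no deformations: every such triangle group is discrete and faithful, and `W_A` is elliptic.

The definitions (`herm`, `refl`, `IsTriangle`, `WA`, `WB`, `Elliptic`, `mcox`, `DF`) are in
`Pool/Agent/Work/MP_88b7aa_gt/CH/Defs.lean`.
-/

set_option autoImplicit false

namespace Pool.Agent.Results.MP_88b7aa_gt.Schwartz

open Pool.Agent.Work.MP_88b7aa_gt.CH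

theorem result (p q r : ℕ) (hp : 2 ≤ p) (hpq : p ≤ q) (hqr : q ≤ r) (h : (1 : ℝ) / p + 1 / q + 1 / r < 1) :
    (∀ (θ : ℝ) (n n' : Fin 3 → Fin 3 → ℂ), IsTriangle p q r θ n → IsTriangle p q r θ n' →
      ∃ g : Matrix (Fin 3) (Fin 3) ℂ, (∀ z w, herm (g.mulVec z) (g.mulVec w) = herm z w) ∧
        ∀ i, g * refl (n i) = refl (n' i) * g) ∧
    (3 ≤ p → ∃ θs : ℝ, 0 < θs ∧ θs < Real.pi ∧
      (∀ θ : ℝ, |θ| ≤ θs → ∃ n, IsTriangle p q r θ n) ∧
      ∀ (θ : ℝ) (n : Fin 3 → Fin 3 → ℂ), |θ| ≤ Real.pi → IsTriangle p q r θ n →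
        ((¬ Elliptic (WA n) ∧ ¬ Elliptic (WB n)) ↔ |θ| ≤ θs) ∧
        (DF (mcox p q r (by omega) (by omega) (by omega)) n ↔ |θ| ≤ θs)) ∧
    (p = 2 → ∀ θ : ℝ, (∃ n, IsTriangle p q r θ n) ∧ ∀ n : Fin 3 → Fin 3 → ℂ, IsTriangle p q r θ n →
      DF (mcox p q r (by omega) (by omega) (by omega)) n ∧ Elliptic (WA n)) := by
  have hq : 3 ≤ q := by
    by_contra hq
    have h1 : p = 2 := by omega
    have h2 : q = 2 := by omega
    subst h1
    subst h2
    have : (0 : ℝ) ≤ 1 / r := by positivity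
    push_cast at h
    linarith
  refine ⟨fun θ n n' => Same p q r hq (by omega) θ n n', ?_, ?_⟩
  · intro hp3
    have hr : 4 ≤ r := by
      by_contra hr
      have h1 : p = 3 := by omega
      have h2 : q = 3 := by omega
      have h3 : r = 3 := by omega
      subst h1
      subst h2
      subst h3
      norm_num at h
    exact Pool.Agent.Work.MP_88b7aa_gt.PQ.Full Pool.Agent.Work.MP_88b7aa_gt.D.done p q r hp3 hpq hqr hr trivial
  · intro hp2 θ
    subst hp2
    have hlt : (1 : ℝ) / q + 1 / r < 1 / 2 := by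
      push_cast at h
      linarith
    exact ⟨Pool.Agent.Work.MP_88b7aa_gt.P2.ex2 q r hq (by omega) hlt θ, fun n hT =>
      Pool.Agent.Work.MP_88b7aa_gt.P2.two q r hq (by omega) hlt θ n hT⟩

end Pool.Agent.Results.MP_88b7aa_gt.Schwartz
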